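import Pool.Agent.Helper53.TT.Half

/-!
MP_cf0286_al: for either parity `e` there is an injective map of A_6([i,i,i+2]) to the binary
relations on the natural numbers which preserves the Boolean operations, the identity and
converse, never enlarges a composition, and is exact on every composition one of whose factors
has only diversity atoms of parity `e`.
-/

namespace Pool.Agent.Results.MP_cf0286_al.AllButOddOdd

open Pool.Agent.RA6 Pool.Agent.Helper53.TT

theorem result : ∀ e, e < 2 → ∃ r : Set Atom → Set (ℕ × ℕ), IsHalfRepresentation e ℕ r :=
  half_exists

end Pool.Agent.Results.MP_cf0286_al.AllButOddOdd
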