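import Mathlib
import Pool.Agent.RA6.Defs99
import Pool.Agent.H59R.Lower59

namespace Pool.Agent.Results.MP_cf0286_al.AtLeast49

open Pool.Agent.RA6

/-- Every finite representation of `A_6([i,i,i+2])` has at least `49` points. -/
theorem result : ∀ (U : Type) [Fintype U] (r : Set Atom → Set (U × U)),
    IsRepresentation U r → 49 ≤ Fintype.card U := by
  intro U _ r hr
  obtain ⟨c, hc⟩ := Pool.Agent.H59R.colouring_of_rep hr
  exact Pool.Agent.H59R.card_ge hc

end Pool.Agent.Results.MP_cf0286_al.AtLeast49
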