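import Pool.Agent.AsixH70.Box9

/-- **MP_cf0286_al.** For every representation of `A_6([i,i,i+2])`, finite or infinite, and all
finitely additive probability measures `m_0, ..., m_5` on its points, the sum over the points `x`
and the nine arrangements of the atoms of the products of the measures of the six neighbourhoods of
`x` is at most `1`. -/
theorem Pool.Agent.Results.MP_cf0286_al.BoxInequality.result
    {U : Type*} {r : Set Pool.Agent.RA6.Atom → Set (U × U)}
    (hr : Pool.Agent.RA6U.IsRepresentation U r)
    (m : ZMod 6 → Set U → ℝ) (hm : ∀ i, Pool.Agent.AsixH70.IsMean (m i)) (X : Finset U) :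
    ∑ x ∈ X, ∑ j : Fin 3, ∑ k : Fin 3,
      ∏ i : ZMod 6, m i (Pool.Agent.RA6U.nbr r (Pool.Agent.AsixH70.arr j k i) x) ≤ 1 := by
  obtain ⟨c, hc, hiff⟩ := Pool.Agent.RA6U.colouring_of_rep hr
  have e : ∀ s x, Pool.Agent.RA6U.nbr r s x = {z | x ≠ z ∧ c x z = s} := by
    intro s x
    ext z
    exact hiff x z s
  simp only [e]
  exact Pool.Agent.AsixH70.boxes_le hc m hm X
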