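import Mathlib
import Pool.Agent.H59R.BasisDefs59
import Pool.Agent.H59R.Basis59

namespace Pool.Agent.Results.MP_cf0286_al.RelationalBasis

open Pool.Agent.H59R

/-- For every `n ≤ 11` the set of all `n`-dimensional basic matrices of `A_6([i,i,i+2])` is an
`n`-dimensional relational basis. -/
theorem result : ∀ n : ℕ, n ≤ 11 → IsRelationalBasis n {M | IsBasic M} :=
  fun _ hn => Pool.Agent.H59R.basis hn

end Pool.Agent.Results.MP_cf0286_al.RelationalBasis
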